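import Mathlib
import Pool.Agent.H983R4.GL.Z3

/-!
# The Lindelöf hypothesis is decided by almost every arithmetic progression

Let `lam n → ∞` be a real sequence with bounded gaps, for instance `lam n = n`. For `κ ≥ 0` the bound
`|ζ(1/2 + it)| = O(t^(κ + ε))` (all `ε > 0`) holds on the whole critical line if and only if it holds, for almost
every `x > 0`, along the dilated sequence `x * lam n` (with constants which may depend on `x`); for `κ = 0` and
`lam n = n`: the Lindelöf hypothesis holds if and only if `ζ(1/2 + ixn) = O(n^ε)` for almost every `x > 0`.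

Quantitative form: if the bound with exponent `κ` holds along the sequences `x * lam n` for a non-null set of `x`
in `(0, x₀)`, and the gaps of `lam` are at most `A`, then `ζ(1/2 + it) = O(t^(κ + 1600 π A x₀ + ε))`.
-/

set_option autoImplicit false

open Filter Topology MeasureTheory Real Set
open scoped Pointwise

namespace Pool.Agent.Results.MP_4e5e8a_nt.AlmostEveryProgression

/-- The modulus of the zeta function on the critical line. -/
noncomputable def Z (t : ℝ) : ℝ := ‖riemannZeta (1 / 2 + t * Complex.I)‖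

/-- `|ζ(1/2 + it)| = O((1 + |t|)^(κ + ε))` for every `ε > 0`; for `κ = 0` this is the Lindelöf
hypothesis. -/
def Exponent (κ : ℝ) : Prop := ∀ ε : ℝ, 0 < ε → ∃ C : ℝ, ∀ t : ℝ, Z t ≤ C * (1 + |t|) ^ (κ + ε)

/-- The same bound at the points `x * lam n` only (`n ∈ ℕ`), with constants that may depend on `x`. -/
def Along (lam : ℕ → ℝ) (κ x : ℝ) : Prop :=
  ∀ ε : ℝ, 0 < ε → ∃ C : ℝ, ∀ n : ℕ, Z (x * lam n) ≤ C * (1 + |x * lam n|) ^ (κ + ε)

lemma Z_cont : Continuous Z := by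
  rw [continuous_iff_continuousAt]
  intro t
  unfold Z
  have h : (1 / 2 + (t : ℂ) * Complex.I) ≠ 1 := by
    intro h
    have := congrArg Complex.re h
    norm_num at this
  have h1 := (differentiableAt_riemannZeta h).continuousAt
  have h2 : ContinuousAt (fun t : ℝ => (1 / 2 + (t : ℂ) * Complex.I)) t := by fun_prop
  exact (ContinuousAt.comp (f := fun t : ℝ => (1 / 2 + (t : ℂ) * Complex.I)) (g := riemannZeta)
    h1 h2).norm

lemma exponent_mono {κ κ' : ℝ} (h : κ ≤ κ') (hE : Exponent κ) : Exponent κ' := by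
  intro ε hε
  obtain ⟨C, hC⟩ := hE ε hε
  refine ⟨|C|, fun t => (hC t).trans ?_⟩
  have h1 : (1 : ℝ) ≤ 1 + |t| := by linarith [abs_nonneg t]
  calc C * (1 + |t|) ^ (κ + ε) ≤ |C| * (1 + |t|) ^ (κ + ε) :=
        mul_le_mul_of_nonneg_right (le_abs_self C) (by positivity)
    _ ≤ |C| * (1 + |t|) ^ (κ' + ε) := by
        gcongr

/-- the least exponent and the near-maximal values around some points -/
lemma least : ∃ θ : ℝ, 0 ≤ θ ∧ θ ≤ 3 ∧ Exponent θ ∧
    ∀ δ η T₀ : ℝ, 0 < δ → δ ≤ θ → 0 < η → η ≤ 1 → ∃ T : ℝ, T₀ ≤ T ∧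
      ∀ h : ℝ, 0 < h → h ≤ 1 / 2 → h ≤ η * δ / (10 * π) →
        volume {x : ℝ | |x - T| ≤ h ∧ Z x ≤ T ^ (θ - δ)} < ENNReal.ofReal (η * (2 * h)) := by
  obtain ⟨θ, hθ0, hθ, hmin⟩ := Pool.Agent.H983R4.GL.Z.leastZ
  refine ⟨θ, hθ0, hmin 3 (by norm_num) Pool.Agent.H983R4.GL.Z.adm_three, hθ,
    fun δ η T₀ hδ hδθ hη hη1 => ?_⟩
  have h2 := Pool.Agent.H983R4.GL.Z.spreadZ hθ hmin hδ hδθ hη hη1
  unfold Pool.Agent.H983R4.GL.Z.SomeZ at h2
  push Not at h2
  obtain ⟨T, hT, h3⟩ := h2 T₀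
  exact ⟨T, hT, fun h a b c => h3 h a b c⟩

/-- **the quantitative form** -/
theorem quant (lam : ℕ → ℝ) (hlam : Tendsto lam atTop atTop) (A : ℝ) (hA : 0 < A)
    (hgap : ∀ n, lam (n + 1) - lam n ≤ A) (κ : ℝ) (hκ : 0 ≤ κ) (x₀ : ℝ)
    (hx₀ : volume {x : ℝ | 0 < x ∧ x < x₀ ∧ Along lam κ x} ≠ 0) :
    Exponent (κ + 1600 * π * A * x₀) := by
  have hpi := Real.pi_pos
  have hpi3 := Real.pi_gt_three
  obtain ⟨θ, hθ0, hθ3, hθ, hleast⟩ := least
  have hx0 : 0 < x₀ := by
    by_contra hcon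
    apply hx₀
    have : {x : ℝ | 0 < x ∧ x < x₀ ∧ Along lam κ x} = ∅ := by
      ext x
      simp only [mem_ofPred_eq, mem_empty_iff_false, iff_false]
      rintro ⟨h1, h2, -⟩
      linarith
    rw [this, measure_empty]
  by_contra hcon
  have hlt : κ + 1600 * π * A * x₀ < θ := by
    by_contra h
    exact hcon (exponent_mono (not_lt.1 h) hθ)
  set δ : ℝ := (θ - κ) / 2 with hδ
  have hAx : 0 < A * x₀ := by positivity
  have hδ1 : 800 * π * (A * x₀) < δ := by rw [hδ]; nlinarith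
  have hδ0 : 0 < δ := lt_of_le_of_lt (by positivity) hδ1
  set ε₁ : ℝ := δ / 2 with hε₁
  have hε0 : 0 < ε₁ := by positivity
  set h : ℝ := 1 / 20 * δ / (10 * π) with hh
  have hh0 : 0 < h := by positivity
  have hh2 : h ≤ 1 / 2 := by
    rw [hh, div_le_iff₀ (by positivity)]; nlinarith
  have hAh : A * x₀ ≤ h / 4 := by
    rw [hh, div_div, le_div_iff₀ (by positivity)]; nlinarith
  -- the sets with a uniform constant
  set S : ℕ → Set ℝ := fun m => {x : ℝ | 0 < x ∧ x < x₀ ∧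
    ∀ n : ℕ, Z (x * lam n) ≤ m * (1 + |x * lam n|) ^ (κ + ε₁)} with hS
  obtain ⟨m, hm⟩ : ∃ m, volume (S m) ≠ 0 := by
    by_contra hno
    push Not at hno
    apply hx₀
    refine measure_mono_null ?_ (measure_iUnion_null hno)
    rintro x ⟨h1, h2, h3⟩
    obtain ⟨C, hC⟩ := h3 ε₁ hε0
    obtain ⟨m, hm⟩ := exists_nat_ge C
    refine mem_iUnion.2 ⟨m, h1, h2, fun n => (hC n).trans ?_⟩
    gcongr
  obtain ⟨x, hxS, hx⟩ : ∃ x ∈ S m, ∀ {ι : Type} {l : Filter ι} (w : ι → ℝ) (δ : ι → ℝ)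
      (_ : Tendsto δ l (𝓝[>] 0)) (_ : ∀ᶠ j in l, x ∈ Metric.closedBall (w j) (1 * δ j)),
      Tendsto (fun j => volume (S m ∩ Metric.closedBall (w j) (δ j)) /
        volume (Metric.closedBall (w j) (δ j))) l (𝓝 1) := by
    have hae := IsUnifLocDoublingMeasure.ae_tendsto_measure_inter_div (μ := (volume : Measure ℝ))
      (S m) 1
    by_contra hno
    push Not at hno
    apply hm
    rw [← Measure.restrict_apply_self]
    refine measure_mono_null ?_ hae
    intro y hy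
    obtain ⟨ι, l, w, δ, h1, h2, h3⟩ := hno y hy
    rw [mem_compl_iff, mem_ofPred_eq]
    intro hcon
    exact h3 (hcon w δ h1 h2)
  obtain ⟨hxp, hxx, hxb⟩ := hxS
  -- density on short intervals to the right of `x`
  obtain ⟨s₀, hs₀, hdens⟩ : ∃ s₀ : ℝ, 0 < s₀ ∧ ∀ s : ℝ, 0 < s → s < s₀ →
      ENNReal.ofReal (s / 2) ≤ volume (S m ∩ Icc x (x + s)) := by
    have h1 := hx (ι := ℝ) (l := 𝓝[>] 0) (fun s => x + s / 2) (fun s => s / 2) (by
        rw [tendsto_nhdsWithin_iff]
        constructor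
        · have : Tendsto (fun s : ℝ => s / 2) (𝓝 0) (𝓝 (0 / 2)) := by
            exact (continuous_id.div_const 2).tendsto 0
          rw [zero_div] at this
          exact this.mono_left nhdsWithin_le_nhds
        · filter_upwards [self_mem_nhdsWithin] with s hs
          rw [mem_Ioi] at hs ⊢
          positivity) (by
        filter_upwards [self_mem_nhdsWithin] with s hs
        rw [mem_Ioi] at hs
        rw [Metric.mem_closedBall, Real.dist_eq, abs_le]
        constructor <;> linarith)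
    have h2 : ∀ᶠ s in 𝓝[>] (0 : ℝ), (1 / 2 : ENNReal) < volume (S m ∩ Metric.closedBall (x + s / 2)
        (s / 2)) / volume (Metric.closedBall (x + s / 2) (s / 2)) :=
      h1.eventually (lt_mem_nhds (by simp))
    rw [eventually_nhdsWithin_iff, Metric.eventually_nhds_iff] at h2
    obtain ⟨s₀, hs₀, h3⟩ := h2
    refine ⟨s₀, hs₀, fun s hs0 hs1 => ?_⟩
    have h4 := h3 (y := s) (by rw [Real.dist_eq, sub_zero, abs_of_pos hs0]; exact hs1) hs0
    rw [Real.volume_closedBall, Real.closedBall_eq_Icc] at h4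
    have e1 : x + s / 2 - s / 2 = x := by ring
    have e2 : x + s / 2 + s / 2 = x + s := by ring
    rw [e1, e2] at h4
    have h5 := (ENNReal.lt_div_iff_mul_lt (by simp) (by simp)).1 h4
    refine le_trans (le_of_eq ?_) h5.le
    rw [show (1 / 2 : ENNReal) = ENNReal.ofReal (1 / 2) by
      rw [ENNReal.ofReal_div_of_pos (by norm_num)]; simp, ← ENNReal.ofReal_mul (by norm_num)]
    congr 1
    ring
  -- largeness of `T`
  have hbig : ∀ᶠ T : ℝ in atTop, (m : ℝ) * (1 + T) ^ (κ + ε₁) ≤ T ^ (θ - δ) := by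
    have e : θ - δ = κ + ε₁ + ε₁ := by rw [hε₁, hδ]; ring
    have h1 : ∀ᶠ T : ℝ in atTop, (m : ℝ) * 2 ^ (κ + ε₁) ≤ T ^ ε₁ :=
      (tendsto_rpow_atTop hε0).eventually_ge_atTop _
    filter_upwards [h1, eventually_ge_atTop (1 : ℝ)] with T hT hT1
    rw [e, rpow_add (by linarith : 0 < T) (κ + ε₁) ε₁]
    calc (m : ℝ) * (1 + T) ^ (κ + ε₁) ≤ m * (2 * T) ^ (κ + ε₁) := by
          gcongr
          linarith
      _ = m * 2 ^ (κ + ε₁) * T ^ (κ + ε₁) := by
          rw [mul_rpow (by norm_num) (by linarith)]; ring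
      _ ≤ T ^ ε₁ * T ^ (κ + ε₁) := by gcongr
      _ = _ := by ring
  obtain ⟨T₀, hT₀⟩ := (hbig.and ((eventually_gt_atTop (x * lam 0 + h)).and
    (eventually_gt_atTop (x * h / (4 * s₀) + h)))).exists_forall_of_atTop
  obtain ⟨T, hT, hsm⟩ := hleast δ (1 / 20) T₀ hδ0 (by rw [hδ]; linarith) (by norm_num)
    (by norm_num)
  have hsm := hsm h hh0 hh2 le_rfl
  obtain ⟨hTa, hTb, hTc⟩ := hT₀ T hT
  -- the index
  have hex : ∃ n, T - h / 2 ≤ x * lam n := by
    have := (hlam.const_mul_atTop hxp).eventually_ge_atTop (T - h / 2)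
    exact this.exists
  classical
  obtain ⟨n, hn1, hn2⟩ : ∃ n, T - h / 2 ≤ x * lam n ∧ x * lam n ≤ T - h / 4 := by
    refine ⟨Nat.find hex, Nat.find_spec hex, ?_⟩
    have hne : Nat.find hex ≠ 0 := by
      intro h0
      have := Nat.find_spec hex
      rw [h0] at this
      linarith
    obtain ⟨l, hl⟩ := Nat.exists_eq_succ_of_ne_zero hne
    have h1 : ¬ T - h / 2 ≤ x * lam l := Nat.find_min hex (by omega)
    push Not at h1
    rw [hl]
    have h2 := hgap l
    have h3 : x * (lam (l + 1) - lam l) ≤ x * A := mul_le_mul_of_nonneg_left h2 hxp.le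
    have h4 : x * A ≤ A * x₀ := by nlinarith
    rw [Nat.succ_eq_add_one]
    nlinarith
  have hlp : 0 < lam n := by
    by_contra hneg
    have : x * lam n ≤ 0 := mul_nonpos_of_nonneg_of_nonpos hxp.le (not_lt.1 hneg)
    have : 0 ≤ x * h / (4 * s₀) := by positivity
    linarith
  set s : ℝ := h / (4 * lam n) with hs
  have hs0 : 0 < s := by positivity
  have hs1 : s < s₀ := by
    rw [hs, div_lt_iff₀ (by positivity)]
    have h1 : x * h / (4 * s₀) < x * lam n := by linarith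
    rw [div_lt_iff₀ (by positivity)] at h1
    have h2 : x * h < x * (s₀ * (4 * lam n)) := by nlinarith
    exact lt_of_mul_lt_mul_left h2 hxp.le
  have hd := hdens s hs0 hs1
  have hsub : lam n • (S m ∩ Icc x (x + s)) ⊆ {x : ℝ | |x - T| ≤ h ∧ Z x ≤ T ^ (θ - δ)} := by
    rintro _ ⟨y, ⟨⟨hy1, hy2, hy3⟩, hy4, hy5⟩, rfl⟩
    simp only [smul_eq_mul]
    have h1 : x * lam n ≤ lam n * y := by nlinarith
    have h2 : lam n * y ≤ x * lam n + h / 4 := by
      have : lam n * y ≤ lam n * (x + s) := mul_le_mul_of_nonneg_left hy5 hlp.le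
      have e : lam n * s = h / 4 := by rw [hs]; field_simp
      nlinarith
    have hT1 : 0 ≤ x * h / (4 * s₀) := by positivity
    refine ⟨by rw [abs_le]; constructor <;> linarith, ?_⟩
    have h3 := hy3 n
    rw [mul_comm y (lam n)] at h3
    refine h3.trans (le_trans ?_ hTa)
    have h4 : 0 ≤ lam n * y := by positivity
    rw [abs_of_nonneg h4]
    gcongr
    linarith
  have hvol : ENNReal.ofReal (lam n) * volume (S m ∩ Icc x (x + s)) ≤
      volume {x : ℝ | |x - T| ≤ h ∧ Z x ≤ T ^ (θ - δ)} := by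
    refine le_trans (le_of_eq ?_) (measure_mono hsub)
    rw [Measure.addHaar_smul]
    simp [abs_of_pos hlp]
  have h1 : ENNReal.ofReal (lam n) * ENNReal.ofReal (s / 2) <
      ENNReal.ofReal (1 / 20 * (2 * h)) :=
    lt_of_le_of_lt (mul_le_mul_right hd _) (lt_of_le_of_lt hvol hsm)
  rw [← ENNReal.ofReal_mul hlp.le, ENNReal.ofReal_lt_ofReal_iff (by positivity)] at h1
  have e : lam n * (s / 2) = h / 8 := by rw [hs]; field_simp; norm_num
  rw [e] at h1
  linarith

lemma along_of_exponent (lam : ℕ → ℝ) {κ : ℝ} (h : Exponent κ) (x : ℝ) : Along lam κ x := by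
  intro ε hε
  obtain ⟨C, hC⟩ := h ε hε
  exact ⟨C, fun n => hC _⟩

lemma exponent_closed {κ : ℝ} (h : ∀ κ' : ℝ, κ < κ' → Exponent κ') : Exponent κ := by
  intro ε hε
  obtain ⟨C, hC⟩ := h (κ + ε / 2) (by linarith) (ε / 2) (by linarith)
  exact ⟨C, fun t => by rw [show κ + ε = κ + ε / 2 + ε / 2 by ring]; exact hC t⟩

theorem ae_iff' (lam : ℕ → ℝ) (hlam : Tendsto lam atTop atTop)
    (hA : ∃ A : ℝ, ∀ n, lam (n + 1) - lam n ≤ A) (κ : ℝ) (hκ : 0 ≤ κ) :
    Exponent κ ↔ ∀ᵐ x : ℝ ∂(volume.restrict (Ioi 0)), Along lam κ x := by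
  refine ⟨fun h => Eventually.of_forall fun x => along_of_exponent lam h x, fun h => ?_⟩
  obtain ⟨A, hA⟩ := hA
  refine exponent_closed fun κ' hκ' => ?_
  have hpi := Real.pi_pos
  set B : ℝ := max A 1 with hB
  have hB0 : 0 < B := lt_max_of_lt_right one_pos
  set x₀ : ℝ := (κ' - κ) / (1600 * π * B) with hx₀
  have hx0 : 0 < x₀ := div_pos (by linarith) (by positivity)
  have h1 := quant lam hlam B hB0 (fun n => (hA n).trans (le_max_left _ _)) κ hκ x₀ (by
    intro h0
    rw [ae_restrict_iff' measurableSet_Ioi, ae_iff] at h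
    have hcov : Ioo 0 x₀ ⊆ {x : ℝ | 0 < x ∧ x < x₀ ∧ Along lam κ x} ∪
        {a : ℝ | ¬(a ∈ Ioi 0 → Along lam κ a)} := by
      intro x hx
      by_cases hc : Along lam κ x
      · left; exact ⟨hx.1, hx.2, hc⟩
      · right
        rw [mem_ofPred_eq]
        push Not
        exact ⟨hx.1, hc⟩
    have h2 := measure_mono_null hcov (measure_union_null h0 h)
    rw [Real.volume_Ioo, ENNReal.ofReal_eq_zero] at h2
    linarith)
  have e : κ + 1600 * π * B * x₀ = κ' := by rw [hx₀]; field_simp; ring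
  rwa [e] at h1

lemma along_nat {x : ℝ} (hx : 0 < x) : Along (fun n : ℕ => (n : ℝ)) 0 x ↔
    ∀ ε : ℝ, 0 < ε → ∃ C : ℝ, ∀ n : ℕ, Z (x * n) ≤ C * (n + 1) ^ ε := by
  constructor
  · intro h ε hε
    obtain ⟨C, hC⟩ := h ε hε
    refine ⟨|C| * (1 + x) ^ ε, fun n => (hC n).trans ?_⟩
    have h1 : (1 + |x * n|) ≤ (1 + x) * (n + 1) := by
      rw [abs_of_nonneg (by positivity)]
      have : (0 : ℝ) ≤ n := by positivity
      nlinarith
    calc C * (1 + |x * n|) ^ (0 + ε) ≤ |C| * (1 + |x * n|) ^ (0 + ε) :=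
          mul_le_mul_of_nonneg_right (le_abs_self C) (by positivity)
      _ ≤ |C| * ((1 + x) * (n + 1)) ^ (0 + ε) := by gcongr
      _ = _ := by rw [zero_add, mul_rpow (by positivity) (by positivity)]; ring
  · intro h ε hε
    obtain ⟨C, hC⟩ := h ε hε
    refine ⟨|C| * (1 + 1 / x) ^ ε, fun n => (hC n).trans ?_⟩
    have h1 : (n : ℝ) + 1 ≤ (1 + 1 / x) * (1 + |x * n|) := by
      rw [abs_of_nonneg (by positivity)]
      have h2 : (0 : ℝ) ≤ n := by positivity
      have h3 : 1 / x * (x * n) = n := by field_simp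
      have h4 : 0 < 1 / x := by positivity
      nlinarith [mul_nonneg hx.le h2]
    calc C * ((n : ℝ) + 1) ^ ε ≤ |C| * ((n : ℝ) + 1) ^ ε :=
          mul_le_mul_of_nonneg_right (le_abs_self C) (by positivity)
      _ ≤ |C| * ((1 + 1 / x) * (1 + |x * n|)) ^ ε := by gcongr
      _ = _ := by rw [zero_add, mul_rpow (by positivity) (by positivity)]; ring

/-- **The Lindelöf hypothesis is decided by almost every arithmetic progression.** -/
theorem result :
    -- equivalence with the bound along almost every dilate of a sequence with bounded gaps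
    (∀ lam : ℕ → ℝ, Tendsto lam atTop atTop → (∃ A : ℝ, ∀ n, lam (n + 1) - lam n ≤ A) →
      ∀ κ : ℝ, 0 ≤ κ → (Exponent κ ↔ ∀ᵐ x : ℝ ∂(volume.restrict (Ioi 0)), Along lam κ x)) ∧
    -- the Lindelöf hypothesis and almost every arithmetic progression
    (Exponent 0 ↔ ∀ᵐ x : ℝ ∂(volume.restrict (Ioi 0)), ∀ ε : ℝ, 0 < ε → ∃ C : ℝ, ∀ n : ℕ,
      Z (x * n) ≤ C * (n + 1) ^ ε) ∧
    -- the quantitative form
    (∀ lam : ℕ → ℝ, Tendsto lam atTop atTop → ∀ A : ℝ, 0 < A → (∀ n, lam (n + 1) - lam n ≤ A) →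
      ∀ κ : ℝ, 0 ≤ κ → ∀ x₀ : ℝ, volume {x : ℝ | 0 < x ∧ x < x₀ ∧ Along lam κ x} ≠ 0 →
        Exponent (κ + 1600 * π * A * x₀)) := by
  refine ⟨ae_iff', ?_, fun lam hlam A hA hgap κ hκ x₀ h => quant lam hlam A hA hgap κ hκ x₀ h⟩
  rw [ae_iff' (fun n : ℕ => (n : ℝ)) tendsto_natCast_atTop_atTop ⟨1, fun n => by push_cast; linarith⟩
    0 le_rfl]
  rw [ae_restrict_iff' measurableSet_Ioi, ae_restrict_iff' measurableSet_Ioi]
  constructor
  · intro h
    filter_upwards [h] with x hx h0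
    exact (along_nat h0).1 (hx h0)
  · intro h
    filter_upwards [h] with x hx h0
    exact (along_nat h0).2 (hx h0)

end Pool.Agent.Results.MP_4e5e8a_nt.AlmostEveryProgression
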