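import Pool.Agent.Y757.LS.Crit

/-!
# Large values of zeta force large values of `S₁` nearby; one-sided criteria

Let `Z(t) = |ζ(1/2 + it)|` and `J(t) = ∫_{1/2}^2 log |ζ(σ + it)| dσ`.  By a classical formula of Littlewood
(not used or proved here) `J(t) = π S₁(t) + O(1)` for `t > 0`, where `S₁(t) = ∫_0^t S(u) du` and
`S(u) = (1/π) arg ζ(1/2 + iu)`, so `J` is determined, up to a bounded function, by the ordinates of the zeros
alone.

* (local law) There are `C`, `T₀` such that for all `T ≥ T₀` with `(log Z(T))³ ≥ C (log T)²` some `t` with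
  `|t - T| ≤ √C (log T / log Z(T))^{3/2}` satisfies `J(t) ≥ (log Z(T))³ / (64 (log T)²)`.
* (power law) If `Z(T) ≥ T^κ`, `T ≥ T₀(κ, a)`, then `J(t) ≥ a log T` for some `t` with `|t - T| ≤ B(κ, a)`, for
  every `a < κ²` if `1/8 ≤ κ ≤ 1/4`, and for every `a < (64/27) κ³ / (1 - 16 κ / 3)` if `0 < κ ≤ 1/8`.
* (one-sided criteria) Consequently upper bounds of `J`, that is, of `S₁`, alone give bounds of zeta:
  if `J(t) ≤ a log t` for all large `t`, with `a` and `κ` as before, then `ζ(1/2 + it) = O(|t|^{κ + ε})`; and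
  the Lindelöf hypothesis holds if and only if `J(t) ≤ ε log t` for every `ε > 0` and all large `t`.
-/

set_option autoImplicit false

namespace Pool.Agent.Results.MP_4e5e8a_nt.LargeValuesForceS1

open MeasureTheory

/-- `|ζ(1/2 + it)|` -/
noncomputable def Z (t : ℝ) : ℝ := ‖riemannZeta (1 / 2 + (t : ℂ) * Complex.I)‖

/-- `J t = ∫_{1/2}^2 log |ζ(σ + it)| dσ` -/
noncomputable def J (t : ℝ) : ℝ :=
  ∫ σ in (1/2 : ℝ)..2, Real.log ‖riemannZeta ((σ : ℂ) + (t : ℂ) * Complex.I)‖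

/-- `|ζ(1/2 + it)| = O((1 + |t|)^(κ + ε))` for every `ε > 0`; for `κ = 0` this is the Lindelöf
hypothesis. -/
def Exponent (κ : ℝ) : Prop := ∀ ε : ℝ, 0 < ε → ∃ C : ℝ, ∀ t : ℝ, Z t ≤ C * (1 + |t|) ^ (κ + ε)

/-- the coefficient: `κ²` for `κ ≥ 1/8`, `(64/27) κ³ / (1 - 16 κ / 3)` for `κ ≤ 1/8` -/
noncomputable def c (κ : ℝ) : ℝ :=
  if 1/8 ≤ κ then κ ^ 2 else 64 / 27 * κ ^ 3 / (1 - 16 / 3 * κ)

lemma law_of {κ a : ℝ} (h0 : 0 < κ) (h1 : κ ≤ 1/4) (h : a < c κ) : Pool.Agent.Y757.LS.Law κ a := by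
  unfold c at h
  split_ifs at h with h2
  · exact Pool.Agent.Y757.LS.law_sq h2 h1 h
  · exact Pool.Agent.Y757.LS.law_cube h0 (not_le.1 h2).le h

theorem result :
    -- the integrals exist
    (∀ t : ℝ, 1 ≤ |t| → IntervalIntegrable
      (fun σ : ℝ => Real.log ‖riemannZeta ((σ : ℂ) + (t : ℂ) * Complex.I)‖) volume (1/2) 2) ∧
    -- the local law, uniform in the size of the value
    (∃ C T₀ : ℝ, 0 < C ∧ ∀ T : ℝ, T₀ ≤ T → C * Real.log T ^ 2 ≤ Real.log (Z T) ^ 3 →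
      ∃ t : ℝ, (t - T) ^ 2 ≤ C * (Real.log T / Real.log (Z T)) ^ 3 ∧
        Real.log (Z T) ^ 3 / (64 * Real.log T ^ 2) ≤ J t) ∧
    -- the law for powers
    (∀ κ a : ℝ, 0 < κ → κ ≤ 1/4 → a < c κ → ∃ B T₀ : ℝ, ∀ T : ℝ, T₀ ≤ T → T ^ κ ≤ Z T →
      ∃ t : ℝ, |t - T| ≤ B ∧ a * Real.log T ≤ J t) ∧
    -- one-sided criteria
    (∀ κ a : ℝ, 0 < κ → κ ≤ 1/4 → a < c κ →
      (∃ T₀ : ℝ, ∀ t : ℝ, T₀ ≤ t → J t ≤ a * Real.log t) → Exponent κ) ∧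
    (Exponent 0 ↔ ∀ ε : ℝ, 0 < ε → ∃ T₀ : ℝ, ∀ t : ℝ, T₀ ≤ t → J t ≤ ε * Real.log t) := by
  refine ⟨fun t ht => ?_, Pool.Agent.Y757.LS.law_unif, fun κ a h0 h1 h => Pool.Agent.Y757.LS.law_pow
    (law_of h0 h1 h), fun κ a h0 h1 h ⟨T₀, hJ⟩ => Pool.Agent.Y757.LS.crit h0.le (law_of h0 h1 h) hJ,
    Pool.Agent.Y757.LS.lindelof_iff⟩
  have h := Pool.Agent.Y757.LS.zeta_intervalIntegrable ht
  have h2 := h.comp_sub_right (1/2)
  have e1 : (0:ℝ) + 1/2 = 1/2 := by norm_num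
  have e2 : (3/2:ℝ) + 1/2 = 2 := by norm_num
  rw [e1, e2] at h2
  refine h2.congr (fun σ _ => ?_)
  simp only [Pool.Agent.Y757.LS.pt]
  congr 3
  push_cast
  ring

end Pool.Agent.Results.MP_4e5e8a_nt.LargeValuesForceS1
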