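import Pool.Agent.Y766.G8

/-!
# The Lindelöf hypothesis on average over sparse generalised arithmetic progressions of heights

Let `F` be a proper generalised arithmetic progression of bounded rank `k` of heights in `[T, 2T]`, with
distinct elements at distance at least `1` and at most `D`.  If `|F| ≥ T^(1/2)` and `|F| ≥ D^(2/3)` then
`∑ |ζ(1/2 + it)|²` over `F` is at most `C T^ε |F|`, as the Lindelöf hypothesis predicts.  Hence
`|ζ(1/2 + it)| ≤ T^ε` for all but at most `C T^(-ε) |F|` of the elements of `F`.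

The progressions may be sparse: for `k = 1` one may take any arithmetic progression of `J ≥ T^(1/2)`
heights with any difference between `1` and `J^(1/2)`, and for `k ≥ 2` sets of `T^(2/3)` heights whose
elements are spread over the whole interval `[T, 2T]`.  For arbitrary sets `F` of well spaced heights the
large sieve and the fourth moment give a bound of Lindelöf quality only for `|F| ≥ T^(1 - o(1))`.
-/

set_option autoImplicit false

namespace Pool.Agent.Results.MP_4e5e8a_nt.LindelofOnProgressions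

/-- `F` is a proper generalised arithmetic progression of rank `k` of real numbers: the numbers
`t₀ + j₁ Δ₁ + ⋯ + j_k Δ_k` with `0 ≤ jᵢ < Jᵢ`, all distinct. -/
def IsProperProgression (k : ℕ) (F : Finset ℝ) : Prop :=
  ∃ (t₀ : ℝ) (Δ : Fin k → ℝ) (J : Fin k → ℕ),
    (∀ t : ℝ, t ∈ F ↔ ∃ j : Fin k → ℕ, (∀ i, j i < J i) ∧ t = t₀ + ∑ i, (j i : ℝ) * Δ i) ∧
    F.card = ∏ i, J i

open Classical in
/-- **Mean squares over generalised arithmetic progressions of heights**, and the number of large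
values. -/
theorem result (k : ℕ) (ε : ℝ) (hε : 0 < ε) : ∃ C : ℝ, ∀ T : ℝ, 1 ≤ T →
    ∀ (D : ℝ) (F : Finset ℝ), IsProperProgression k F →
    (∀ t ∈ F, T ≤ t ∧ t ≤ 2 * T) →
    (∀ t ∈ F, ∀ u ∈ F, t ≠ u → 1 ≤ |t - u| ∧ |t - u| ≤ D) →
    D ^ (2 / 3 : ℝ) ≤ F.card → T ^ (1 / 2 : ℝ) ≤ F.card →
    ∑ t ∈ F, ‖riemannZeta (1 / 2 + t * Complex.I)‖ ^ 2 ≤ C * T ^ ε * F.card ∧
    ((F.filter (fun t : ℝ => T ^ ε < ‖riemannZeta (1 / 2 + t * Complex.I)‖)).card : ℝ) ≤
      C * T ^ (-ε) * F.card := by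
  obtain ⟨C, hC⟩ := Pool.Agent.Y766.gap_set k hε
  refine ⟨C, ?_⟩
  intro T hT D F hF hFT hsep hD hTF
  have h := hC T hT D F hF hFT hsep hD hTF
  refine ⟨h, ?_⟩
  have hT0 : 0 < T := by linarith
  have hTε : 0 < T ^ ε := Real.rpow_pos_of_pos hT0 ε
  set G := F.filter (fun t : ℝ => T ^ ε < ‖riemannZeta (1 / 2 + t * Complex.I)‖) with hG
  have h1 : (G.card : ℝ) * (T ^ ε) ^ 2 ≤ C * T ^ ε * F.card := by
    refine le_trans ?_ h
    rw [← nsmul_eq_mul, ← Finset.sum_const]
    refine (Finset.sum_le_sum fun t ht => ?_).trans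
      (Finset.sum_le_sum_of_subset_of_nonneg (Finset.filter_subset _ _) fun i _ _ => by positivity)
    rw [hG, Finset.mem_filter] at ht
    exact pow_le_pow_left₀ hTε.le ht.2.le 2
  have h2 : T ^ (-ε) * T ^ ε = 1 := by
    rw [← Real.rpow_add hT0, neg_add_cancel, Real.rpow_zero]
  have h3 : 0 < T ^ (-ε) := Real.rpow_pos_of_pos hT0 _
  calc (G.card : ℝ) = T ^ (-ε) * T ^ (-ε) * ((G.card : ℝ) * (T ^ ε) ^ 2) := by
        have : T ^ (-ε) * T ^ (-ε) * ((G.card : ℝ) * (T ^ ε) ^ 2) =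
          (G.card : ℝ) * (T ^ (-ε) * T ^ ε) ^ 2 := by ring
        rw [this, h2]; ring
    _ ≤ T ^ (-ε) * T ^ (-ε) * (C * T ^ ε * F.card) := by gcongr
    _ = (T ^ (-ε) * T ^ ε) * (C * T ^ (-ε) * F.card) := by ring
    _ = _ := by rw [h2, one_mul]

end Pool.Agent.Results.MP_4e5e8a_nt.LindelofOnProgressions
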