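import Mathlib
import Pool.Agent.X114.TS3
import Pool.Agent.X114.TS4

/-!
# The Lindelöf hypothesis is decided by thin sampling sets: positive logarithmic capacity suffices

Let `E` be a set of real numbers of positive logarithmic capacity (it may be a Cantor set of Hausdorff dimension `0`)
and let `t n → ∞` with `t (n + 1) - t n → 0`.  For every `κ ≥ 0` the bound `|ζ(1/2 + it)| = O(t^(κ + ε))` (all
`ε > 0`) holds on the whole critical line if and only if, for every `α` in `E`, it holds at the points `t n + α`,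
with constants that may depend on `α`.  For `κ = 0`: the Lindelöf hypothesis holds if and only if
`ζ(1/2 + i(t n + α)) = O(t n ^ ε)` for every `α ∈ E`.  In other words, if it fails, then along every sequence with
gaps tending to `0` the translates `α` for which it is true form a set of capacity zero.

This follows from a local criterion, in which no regularity of the sampling set `S` and no separation of its points
is supposed.  Let `0 < r ≤ 1/8`.  Suppose that all windows `[T - r, T + r]`, `T ≥ T₀`, contain at least `4 r log T`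
points of `S` the logarithmic energy of which is at most `η log T` per point.  If `|ζ(1/2 + it)| = O(t^(κ + ε))` on
`S`, then `ζ(1/2 + it) = O(t^(κ + 2η + ε))` for all `t`.

Proof.  Cauchy's formula in the disc of radius `4r` about `1/2 + iT` for `ζ(s) T^((s - 1/2 - iT)/2)` divided by
the product of the `s - s_j` over the sampling points: this function is bounded by `T^(θ + ε + 2r)`, `θ` the least
exponent (functional equation and harmonic majorant), and the product gains a factor `3^(-N)`, `N ≥ 2 r log T`,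
which beats `T^(2r)` as `2 log 3 > 2`; the residues are controlled by the energy.  A set of positive capacity contains,
in some interval of length `r`, arbitrarily many points with energy `o(1/r)` per pair, as `r → 0`.
-/

set_option autoImplicit false

open Filter Topology MeasureTheory Set

namespace Pool.Agent.Results.MP_4e5e8a_nt.ThinSampling

/-- The modulus of the zeta function on the critical line. -/
noncomputable def Z (t : ℝ) : ℝ := ‖riemannZeta (1 / 2 + t * Complex.I)‖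

/-- `|ζ(1/2 + it)| = O((1 + |t|)^(κ + ε))` for every `ε > 0`; for `κ = 0` this is the Lindelöf
hypothesis. -/
def Exponent (κ : ℝ) : Prop := ∀ ε : ℝ, 0 < ε → ∃ C : ℝ, ∀ t : ℝ, Z t ≤ C * (1 + |t|) ^ (κ + ε)

/-- The same bound at the points of `S` only. -/
def ExponentOn (S : Set ℝ) (κ : ℝ) : Prop :=
  ∀ ε : ℝ, 0 < ε → ∃ C : ℝ, ∀ t ∈ S, Z t ≤ C * (1 + |t|) ^ (κ + ε)

/-- All windows `[T - r, T + r]` with `T` large contain a finite set `s` of at least `4 r log T` points of `S` with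
(normalised) logarithmic energy `∑_{x ≠ y} log (2 r / |x - y|)` at most `η |s| log T`. -/
def Rich (S : Set ℝ) (r η : ℝ) : Prop := ∃ T₀ : ℝ, ∀ T : ℝ, T₀ ≤ T → ∃ s : Finset ℝ,
  (∀ x ∈ s, x ∈ S ∧ |x - T| ≤ r) ∧ 4 * r * Real.log T ≤ s.card ∧
  ∑ x ∈ s, ∑ y ∈ s.erase x, Real.log (2 * r / |x - y|) ≤ η * s.card * Real.log T

/-- Positive (inner) logarithmic capacity: `E` carries a nonzero finite measure without point masses whose
logarithmic energy `∬ log⁺ (1 / |x - y|) dν(x) dν(y)` is finite. -/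
def PosCap (E : Set ℝ) : Prop := ∃ ν : Measure ℝ, ν univ ≠ ⊤ ∧ ν ≠ 0 ∧ ν Eᶜ = 0 ∧
  (∀ x : ℝ, ν {x} = 0) ∧
  ∫⁻ x, ∫⁻ y, ENNReal.ofReal (Real.log (1 / |x - y|)) ∂ν ∂ν ≠ ⊤

open Pool.Agent.X114.TS

lemma Z_cont : Continuous Z := by
  rw [continuous_iff_continuousAt]
  intro t
  unfold Z
  have h : (1 / 2 + (t : ℂ) * Complex.I) ≠ 1 := by
    intro h
    have := congrArg Complex.re h
    norm_num at this
  have h1 := (differentiableAt_riemannZeta h).continuousAt
  have h2 : ContinuousAt (fun t : ℝ => (1 / 2 + (t : ℂ) * Complex.I)) t := by fun_prop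
  exact (ContinuousAt.comp (f := fun t : ℝ => (1 / 2 + (t : ℂ) * Complex.I)) (g := riemannZeta)
    h1 h2).norm

lemma closed {κ : ℝ} (h : ∀ η : ℝ, 0 < η → Exponent (κ + η)) : Exponent κ := by
  intro ε hε
  obtain ⟨C, hC⟩ := h (ε / 2) (by linarith) (ε / 2) (by linarith)
  refine ⟨C, fun t => ?_⟩
  have := hC t
  rwa [show κ + ε / 2 + ε / 2 = κ + ε by ring] at this

theorem loc {S : Set ℝ} {r η κ : ℝ} (hr : 0 < r) (hr8 : r ≤ 1 / 8) (hη : 0 < η)
    (hS : Rich S r η) (hκ : 0 ≤ κ) (h : ExponentOn S κ) : Exponent (κ + 2 * η) :=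
  local_criterion hr hr8 hη hS hκ h

/-- points of sets of positive capacity, translated -/
lemma rich_of_cap {ν : Measure ℝ} [IsFiniteMeasure ν] [NullSingletonClass ν] (hν : ν ≠ 0)
    (hE : ∫⁻ x, ∫⁻ y, w x y ∂ν ∂ν ≠ ⊤) {A : Set ℝ} (hAm : MeasurableSet A) {N : ℕ}
    (hN : 0 < N) (hA : ν (A ∩ Ico (-(N:ℝ)) N)ᶜ = 0) {t : ℕ → ℝ} (ht : Tendsto t atTop atTop)
    (hgap : Tendsto (fun n => t (n + 1) - t n) atTop (𝓝 0)) {η : ℝ} (hη : 0 < η) :
    ∃ r : ℝ, 0 < r ∧ r ≤ 1 / 8 ∧ Rich {x | ∃ n : ℕ, ∃ α ∈ A, x = t n + α} r η := by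
  obtain ⟨J, hJ⟩ := configs hν hE hAm hN hA (c := η / 5) (by positivity)
  set j : ℕ := max J 8 with hj
  obtain ⟨k, hk⟩ := hJ j (le_max_left _ _)
  have hj8 : (8:ℝ) ≤ j := by exact_mod_cast le_max_right J 8
  set r : ℝ := 1 / ((j : ℝ) + 1) with hr
  have hj1 : (0:ℝ) < (j:ℝ) + 1 := by positivity
  have hr0 : 0 < r := by positivity
  have hr8 : r ≤ 1 / 8 := by
    rw [hr]; gcongr; linarith
  have hrj : ((j:ℝ) + 1) * r = 1 := by rw [hr]; field_simp
  refine ⟨r, hr0, hr8, ?_⟩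
  obtain ⟨n₀, hn₀⟩ := eventually_atTop.1 (hgap.eventually (gt_mem_nhds (show (0:ℝ) < r / 2 by positivity)))
  set y₀ : ℝ := ((k:ℝ) + 1 / 2) / (j + 1) with hy₀
  refine ⟨max (t n₀ + y₀) (Real.exp (1 / r)), fun T hT => ?_⟩
  have hT1 : t n₀ ≤ T - y₀ := by linarith [(le_max_left (t n₀ + y₀) (Real.exp (1 / r))).trans hT]
  have hT2 : Real.exp (1 / r) ≤ T := (le_max_right _ _).trans hT
  have hTp : 0 < T := (Real.exp_pos _).trans_le hT2
  have hL : 1 / r ≤ Real.log T := by rwa [Real.le_log_iff_exp_le hTp]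
  have hL0 : 0 < Real.log T := lt_of_lt_of_le (by positivity) hL
  have hrL : 1 ≤ r * Real.log T := by
    rw [div_le_iff₀ hr0] at hL; linarith
  -- the translate
  obtain ⟨n, hn1, hn2⟩ : ∃ n : ℕ, t n ≤ T - y₀ ∧ T - y₀ < t n + r / 2 := by
    classical
    have hex : ∃ m : ℕ, T - y₀ < t (n₀ + m) := by
      have h1 : ∀ᶠ n in atTop, T - y₀ < t n := ht.eventually (eventually_gt_atTop _)
      obtain ⟨a, ha⟩ := eventually_atTop.1 h1
      exact ⟨a, ha (n₀ + a) (by omega)⟩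
    set m := Nat.find hex with hm
    have hm1 : T - y₀ < t (n₀ + m) := Nat.find_spec hex
    have hm0 : m ≠ 0 := by
      intro h
      rw [h, add_zero] at hm1
      linarith
    obtain ⟨l, hl⟩ := Nat.exists_eq_succ_of_ne_zero hm0
    have h2 : ¬ T - y₀ < t (n₀ + l) := Nat.find_min hex (by rw [← hm, hl]; exact Nat.lt_succ_self l)
    refine ⟨n₀ + l, not_lt.1 h2, ?_⟩
    have h3 := hn₀ (n₀ + l) (by omega)
    rw [hl] at hm1
    have h4 : n₀ + l.succ = n₀ + l + 1 := by omega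
    rw [h4] at hm1
    linarith
  obtain ⟨s, hs1, hs2, hs3⟩ := hk ⌈4 * r * Real.log T⌉₊
  set e : ℝ ↪ ℝ := ⟨fun x => t n + x, fun a b h => by simpa using h⟩ with he
  have hee : ∀ x, e x = t n + x := fun _ => rfl
  refine ⟨s.map e, ?_, ?_, ?_⟩
  · intro x hx
    obtain ⟨α, hα, rfl⟩ := Finset.mem_map.1 hx
    obtain ⟨h1, h2, h3⟩ := hs2 α hα
    refine ⟨⟨n, α, h1, rfl⟩, ?_⟩
    rw [hee]
    have e1 : y₀ = (k:ℝ) / (j + 1) + r / 2 := by rw [hy₀, hr]; ring
    have e2 : ((k:ℝ) + 1) / (j + 1) = (k:ℝ) / (j + 1) + r := by rw [hr]; ring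
    rw [e2] at h3
    rw [abs_le]
    constructor <;> linarith
  · rw [Finset.card_map, hs1]
    exact Nat.le_ceil _
  · rw [Finset.sum_map, Finset.card_map]
    have h1 : ∀ x ∈ s, ∑ y ∈ (s.map e).erase (e x), Real.log (2 * r / |e x - y|) ≤
        ∑ y ∈ s.erase x, Real.log (1 / |x - y|) := by
      intro x hx
      rw [← Finset.map_erase, Finset.sum_map]
      apply Finset.sum_le_sum
      intro y hy
      have hne : x ≠ y := (Finset.ne_of_mem_erase hy).symm
      have h2 : 0 < |x - y| := abs_pos.2 (sub_ne_zero.2 hne)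
      rw [hee, hee, add_sub_add_left_eq_sub]
      apply Real.log_le_log (by positivity)
      gcongr
      linarith
    refine (Finset.sum_le_sum h1).trans (hs3.trans ?_)
    have h2 : ((⌈4 * r * Real.log T⌉₊ : ℕ) : ℝ) ≤ 5 * (r * Real.log T) := by
      have := (Nat.ceil_lt_add_one (show 0 ≤ 4 * r * Real.log T by positivity)).le
      linarith
    rw [hs1]
    have h3 : 0 ≤ ((⌈4 * r * Real.log T⌉₊ : ℕ) : ℝ) := Nat.cast_nonneg _
    calc η / 5 * ((j:ℝ) + 1) * ((⌈4 * r * Real.log T⌉₊ : ℕ) : ℝ) ^ 2 =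
        η / 5 * ((j:ℝ) + 1) * ((⌈4 * r * Real.log T⌉₊ : ℕ) : ℝ) * ((⌈4 * r * Real.log T⌉₊ : ℕ) : ℝ) := by
          ring
      _ ≤ η / 5 * ((j:ℝ) + 1) * ((⌈4 * r * Real.log T⌉₊ : ℕ) : ℝ) * (5 * (r * Real.log T)) := by
          gcongr
      _ = η * ((⌈4 * r * Real.log T⌉₊ : ℕ) : ℝ) * Real.log T * (((j:ℝ) + 1) * r) := by ring
      _ = _ := by rw [hrj, mul_one]

theorem cap {E : Set ℝ} (hE : PosCap E) {t : ℕ → ℝ} (ht : Tendsto t atTop atTop)
    (hgap : Tendsto (fun n => t (n + 1) - t n) atTop (𝓝 0)) {κ : ℝ} (hκ : 0 ≤ κ)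
    (h : ∀ α ∈ E, ∀ ε : ℝ, 0 < ε → ∃ C : ℝ, ∀ n : ℕ, Z (t n + α) ≤ C * (1 + |t n + α|) ^ (κ + ε)) :
    Exponent κ := by
  apply closed
  intro η hη
  obtain ⟨ν, hfin, hν, hνE, hatom, hen⟩ := hE
  have : IsFiniteMeasure ν := ⟨lt_top_iff_ne_top.2 hfin⟩
  have : NullSingletonClass ν := ⟨hatom⟩
  -- the sets with uniform constants, in bounded intervals
  set A : ℕ → Set ℝ := fun m => {α | ∀ n : ℕ, Z (t n + α) ≤ m * (1 + |t n + α|) ^ (κ + η / 2)} with hA
  have hAc : ∀ m, IsClosed (A m) := by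
    intro m
    have e : A m = ⋂ n : ℕ, {α | Z (t n + α) ≤ m * (1 + |t n + α|) ^ (κ + η / 2)} := by
      ext α
      simp [hA]
    rw [e]
    apply isClosed_iInter
    intro n
    apply isClosed_le
    · exact Z_cont.comp (by fun_prop)
    · apply continuous_const.mul
      apply Continuous.rpow_const (by fun_prop)
      intro α
      left
      positivity
  have hcov : E ⊆ ⋃ m : ℕ, A m ∩ Ico (-((m + 1 : ℕ) : ℝ)) ((m + 1 : ℕ) : ℝ) := by
    intro α hα
    obtain ⟨C, hC⟩ := h α hα (η / 2) (by positivity)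
    obtain ⟨m, hm⟩ := exists_nat_gt (max C |α|)
    have hm1 : C < m := (le_max_left _ _).trans_lt hm
    have hm2 : |α| < m := (le_max_right _ _).trans_lt hm
    rw [abs_lt] at hm2
    rw [mem_iUnion]
    refine ⟨m, ?_, ?_, ?_⟩
    · intro n
      refine (hC n).trans ?_
      gcongr
    · push_cast; linarith
    · push_cast; linarith
  obtain ⟨m, hm⟩ : ∃ m : ℕ, ν (A m ∩ Ico (-((m + 1 : ℕ) : ℝ)) ((m + 1 : ℕ) : ℝ)) ≠ 0 := by
    by_contra hno
    push Not at hno
    apply hν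
    rw [← Measure.measure_univ_eq_zero]
    refine measure_mono_null (t := (⋃ m : ℕ, A m ∩ Ico (-((m + 1 : ℕ) : ℝ)) ((m + 1 : ℕ) : ℝ)) ∪ Eᶜ) ?_ ?_
    · intro x _
      by_cases hx : x ∈ E
      · exact Or.inl (hcov hx)
      · exact Or.inr hx
    · rw [measure_union_null_iff]
      exact ⟨measure_iUnion_null hno, hνE⟩
  set Y : Set ℝ := A m ∩ Ico (-((m + 1 : ℕ) : ℝ)) ((m + 1 : ℕ) : ℝ) with hY
  have hYm : MeasurableSet Y := (hAc m).measurableSet.inter measurableSet_Ico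
  set μ : Measure ℝ := ν.restrict Y with hμ
  have : NullSingletonClass μ := ⟨fun x => by
    have := Measure.le_iff'.1 (Measure.restrict_le_self (μ := ν) (s := Y)) {x}
    rw [hatom x] at this
    exact le_antisymm this (zero_le)⟩
  have hμ0 : μ ≠ 0 := by
    intro h0
    apply hm
    rw [← Measure.restrict_apply_self, ← hμ, h0]
    rfl
  have hμE : ∫⁻ x, ∫⁻ y, w x y ∂μ ∂μ ≠ ⊤ := by
    refine ne_top_of_le_ne_top hen ?_
    calc ∫⁻ x, ∫⁻ y, w x y ∂μ ∂μ ≤ ∫⁻ x, ∫⁻ y, w x y ∂ν ∂μ :=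
          lintegral_mono fun x => lintegral_mono' Measure.restrict_le_self le_rfl
      _ ≤ ∫⁻ x, ∫⁻ y, w x y ∂ν ∂ν := lintegral_mono' Measure.restrict_le_self le_rfl
  have hμA : μ (A m ∩ Ico (-((m + 1 : ℕ) : ℝ)) ((m + 1 : ℕ) : ℝ))ᶜ = 0 := by
    rw [hμ, Measure.restrict_apply hYm.compl, compl_inter_self, measure_empty]
  obtain ⟨r, hr0, hr8, hrich⟩ := rich_of_cap hμ0 hμE (hAc m).measurableSet (N := m + 1)
    (Nat.succ_pos m) hμA ht hgap (η := η / 4) (by positivity)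
  have hon : ExponentOn {x | ∃ n : ℕ, ∃ α ∈ A m, x = t n + α} (κ + η / 2) := by
    intro ε hε
    refine ⟨m, ?_⟩
    rintro x ⟨n, α, hα, rfl⟩
    refine (hα n).trans ?_
    have h1 : 1 ≤ 1 + |t n + α| := by linarith [abs_nonneg (t n + α)]
    exact mul_le_mul_of_nonneg_left (Real.rpow_le_rpow_of_exponent_le h1 (by linarith))
      (Nat.cast_nonneg m)
  have := loc hr0 hr8 (by positivity) hrich (by linarith) hon
  rwa [show κ + η / 2 + 2 * (η / 4) = κ + η by ring] at this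

/-- **Thin sampling sets.** -/
theorem result :
    -- the local criterion
    (∀ (S : Set ℝ) (r η κ : ℝ), 0 < r → r ≤ 1 / 8 → 0 < η → 0 ≤ κ → Rich S r η → ExponentOn S κ →
      Exponent (κ + 2 * η)) ∧
    -- sampling sets
    (∀ S : Set ℝ, (∀ η : ℝ, 0 < η → ∃ r : ℝ, 0 < r ∧ r ≤ 1 / 8 ∧ Rich S r η) →
      ∀ κ : ℝ, 0 ≤ κ → (Exponent κ ↔ ExponentOn S κ)) ∧
    -- positive capacity
    (∀ E : Set ℝ, PosCap E → ∀ t : ℕ → ℝ, Tendsto t atTop atTop →
      Tendsto (fun n => t (n + 1) - t n) atTop (𝓝 0) → ∀ κ : ℝ, 0 ≤ κ →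
      (Exponent κ ↔ ∀ α ∈ E, ∀ ε : ℝ, 0 < ε → ∃ C : ℝ, ∀ n : ℕ,
        Z (t n + α) ≤ C * (1 + |t n + α|) ^ (κ + ε))) := by
  refine ⟨fun S r η κ hr hr8 hη hκ hS h => loc hr hr8 hη hS hκ h, ?_, ?_⟩
  · intro S hS κ hκ
    constructor
    · intro h ε hε
      obtain ⟨C, hC⟩ := h ε hε
      exact ⟨C, fun t _ => hC t⟩
    · intro h
      apply closed
      intro η hη
      obtain ⟨r, hr, hr8, hR⟩ := hS (η / 2) (by positivity)
      have := loc hr hr8 (by positivity) hR hκ h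
      rwa [show κ + 2 * (η / 2) = κ + η by ring] at this
  · intro E hE t ht hgap κ hκ
    constructor
    · intro h α _ ε hε
      obtain ⟨C, hC⟩ := h ε hε
      exact ⟨C, fun n => hC _⟩
    · exact cap hE ht hgap hκ

end Pool.Agent.Results.MP_4e5e8a_nt.ThinSampling
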